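import Mathlib
import Pool.Agent.V11217.WeakPseudo

/-!
# A weakly pseudocompact `ω`-bounded topological group that is not precompact
-/

namespace Pool.Agent.Results.MP_45eb7b_gt.LineTimesSigma

open Pool.Agent.V11217.WeakPseudo

/-- There is a Hausdorff (abelian) topological group that is weakly pseudocompact and `ω`-bounded
but not precompact. -/
theorem result :
    ∃ (G : Type) (_ : AddCommGroup G) (_ : TopologicalSpace G) (_ : IsTopologicalAddGroup G)
      (_ : T2Space G), WeaklyPseudocompact G ∧ OmegaNarrow G ∧ ¬ Precompact G :=
  ⟨G, inferInstance, inferInstance, inferInstance, inferInstance,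
    weaklyPseudocompact_G, omegaNarrow_G, not_precompact_G⟩

end Pool.Agent.Results.MP_45eb7b_gt.LineTimesSigma
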